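import Pool.Agent.R610.NullRealC

open Set MeasureTheory
open scoped Pointwise

namespace Pool.Agent.Results.MP_52c2ea_lc.NullAdditiveProduct

/-- `A` is null-additive with respect to `μ`: `A + N` is null for every null `N`. -/
def NullAdditive {G : Type*} [Add G] [MeasurableSpace G] (μ : Measure G) (A : Set G) : Prop :=
  ∀ N : Set G, μ N = 0 → μ (A + N) = 0

/-- The product of two null-additive sets of reals is null-additive in the plane. -/
theorem result (X Y : Set ℝ) (hX : NullAdditive volume X) (hY : NullAdditive volume Y) :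
    NullAdditive (volume : Measure (ℝ × ℝ)) (X ×ˢ Y) := by
  intro N hN
  obtain ⟨p, hp, hprod⟩ := Pool.Agent.R610.NullReal.exists_scales N hN
  obtain ⟨A, hA1, hA2, hA3⟩ := Pool.Agent.R610.NullReal.exists_decomp hp X hX
  obtain ⟨B, hB1, hB2, hB3⟩ := Pool.Agent.R610.NullReal.exists_decomp hp Y hY
  have hsub : (X ×ˢ Y) + N ⊆ ⋃ a ∈ A, ⋃ b ∈ B, ((a ×ˢ b) + N) := by
    rintro _ ⟨⟨x, y⟩, ⟨hx, hy⟩, ν, hν, rfl⟩
    obtain ⟨a, ha, hxa⟩ := hA2 hx
    obtain ⟨b, hb, hyb⟩ := hB2 hy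
    exact mem_iUnion₂.2 ⟨a, ha, mem_iUnion₂.2 ⟨b, hb, (x, y), ⟨hxa, hyb⟩, ν, hν, rfl⟩⟩
  refine measure_mono_null hsub ?_
  rw [measure_biUnion_null_iff hA1]
  intro a ha
  rw [measure_biUnion_null_iff hB1]
  intro b hb
  exact hprod a b (hA3 a ha) (hB3 b hb)

end Pool.Agent.Results.MP_52c2ea_lc.NullAdditiveProduct
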